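import Pool.Agent.H47.Newt2.TIN

/-! # NEWTON2, module TAP: the class of a pyramid of height one -/

set_option autoImplicit false

namespace Pool.Newt2

open MvPolynomial Pool.Agent.H39.MonoR Pool.Agent.H75.Mono Pool.Newt

namespace TAP47

open TIN47

variable {k : Type} [Field k] [Algebra k ℂ]

theorem mo_origin : mo k {x : ℂ | x = 0} = 1 := by
  rw [← mo_univ_unit (k := k)]
  refine (mo_bij (f := fun _ : Unit => (0 : ℂ)) ICons.univ
    (ICons.eq PFun.id' PFun.zero) (PMap.of_pFun PFun.zero) ⟨?_, ?_, ?_⟩).symm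
  · intro x _
    exact rfl
  · intro x _ y _ _
    exact Subsingleton.elim x y
  · intro y hy
    exact ⟨(), Set.mem_univ _, hy.symm⟩

theorem mo_ne_zero : mo k {x : ℂ | x ≠ 0} = (↑(Lu k) : M k) - 1 := by
  have h := mo_split (k := k) (A := (Set.univ : Set ℂ)) ICons.univ (p := fun x => x = 0)
    (ICons.eq PFun.id' PFun.zero)
  have h1 : {x : ℂ | x ∈ (Set.univ : Set ℂ) ∧ x = 0} = {x : ℂ | x = 0} := by
    ext x; simp
  have h2 : {x : ℂ | x ∈ (Set.univ : Set ℂ) ∧ ¬ x = 0} = {x : ℂ | x ≠ 0} := by
    ext x; simp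
  rw [h1, h2, mo_univ_C, mo_origin] at h
  rw [h]
  ring

theorem mo_gm : mo k {x : ℂ × ℂ | x.1 * x.2 = 1} = (↑(Lu k) : M k) - 1 := by
  rw [← mo_ne_zero]
  refine mo_bij (ICons.eq (PFun.mul (PFun.of_pMap PMap.fst) (PFun.of_pMap PMap.snd)) PFun.one)
    (ICons.ne PFun.id' PFun.zero) PMap.fst ⟨?_, ?_, ?_⟩
  · intro x hx h
    simp only [Set.mem_ofPred_eq] at hx
    have h0 : x.1 = 0 := h
    rw [h0, zero_mul] at hx
    exact zero_ne_one hx
  · intro x hx y hy hxy
    simp only [Set.mem_ofPred_eq] at hx hy
    have h0 : x.1 = y.1 := hxy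
    refine Prod.ext h0 ?_
    rw [eq_inv_of_mul_eq_one_right hx, eq_inv_of_mul_eq_one_right hy, h0]
  · intro y hy
    exact ⟨(y, y⁻¹), mul_inv_cancel₀ hy, rfl⟩

theorem mo_Tor (J : Type) [Fintype J] :
    mo k (Tor J) = ((↑(Lu k) : M k) - 1) ^ (Fintype.card J) := by
  refine Fintype.induction_empty_option
    (P := fun J _ => mo k (Tor J) = ((↑(Lu k) : M k) - 1) ^ (Fintype.card J)) ?_ ?_ ?_ J
  · intro α β _ e h
    let _ : Fintype α := Fintype.ofEquiv β e.symm
    have hc : Fintype.card α = Fintype.card β := Fintype.card_congr e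
    have h' : mo k (Tor α) = ((↑(Lu k) : M k) - 1) ^ (Fintype.card β) := by rw [← hc]; exact h
    rw [← h']
    refine mo_bij (f := fun p : (β → ℂ) × (β → ℂ) =>
      ((fun a => p.1 (e a), fun a => p.2 (e a)) : (α → ℂ) × (α → ℂ))) ICons_Tor ICons_Tor
      (PMap.prodMk (PMap.pi fun a => (PFun.apply (e a)).comp PMap.fst)
        (PMap.pi fun a => (PFun.apply (e a)).comp PMap.snd)) ⟨?_, ?_, ?_⟩
    · intro p hp a
      exact hp (e a)
    · intro p _ q _ h
      have h1 := (Prod.mk.inj h).1
      have h2 := (Prod.mk.inj h).2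
      refine Prod.ext (funext fun b => ?_) (funext fun b => ?_)
      · have h3 := congrFun h1 (e.symm b)
        simpa using h3
      · have h3 := congrFun h2 (e.symm b)
        simpa using h3
    · intro q hq
      refine ⟨(fun b => q.1 (e.symm b), fun b => q.2 (e.symm b)), fun b => hq (e.symm b), ?_⟩
      refine Prod.ext (funext fun a => ?_) (funext fun a => ?_)
      · simp
      · simp
  · have e : Tor PEmpty = Set.univ := by
      ext p
      simp only [Set.mem_univ, iff_true]
      intro j
      exact j.elim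
    rw [e, Fintype.card_pempty, pow_zero, ← mo_univ_unit (k := k)]
    refine mo_bij (f := fun _ => ()) ICons.univ ICons.univ PMap.toUnit ⟨?_, ?_, ?_⟩
    · intro x _
      exact Set.mem_univ _
    · intro x _ y _ _
      exact Subsingleton.elim x y
    · intro y _
      exact ⟨(fun j => j.elim, fun j => j.elim), Set.mem_univ _, rfl⟩
  · intro α _ h
    rw [Fintype.card_option, pow_succ, ← h, ← mo_gm, ← mo_prod ICons_Tor
      (ICons.eq (PFun.mul (PFun.of_pMap PMap.fst) (PFun.of_pMap PMap.snd)) PFun.one)]
    refine mo_bij (f := fun p : (Option α → ℂ) × (Option α → ℂ) =>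
      (((fun a => p.1 (some a), fun a => p.2 (some a)), (p.1 none, p.2 none)) :
        ((α → ℂ) × (α → ℂ)) × (ℂ × ℂ))) ICons_Tor ?_ ?_ ⟨?_, ?_, ?_⟩
    · refine ICons.and (ICons_Tor.mem PMap.fst) (ICons.eq (PFun.mul ?_ ?_) PFun.one)
      · exact PFun.of_pMap (PMap.fst.comp PMap.snd)
      · exact PFun.of_pMap (PMap.snd.comp PMap.snd)
    · refine PMap.prodMk (PMap.prodMk (PMap.pi fun a => (PFun.apply (some a)).comp PMap.fst)
        (PMap.pi fun a => (PFun.apply (some a)).comp PMap.snd))
        (PMap.prodMk (PMap.of_pFun ((PFun.apply none).comp PMap.fst))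
          (PMap.of_pFun ((PFun.apply none).comp PMap.snd)))
    · intro p hp
      exact ⟨fun a => hp (some a), hp none⟩
    · intro p _ q _ h
      have h1 := congrArg (fun z => z.1.1) h
      have h2 := congrArg (fun z => z.1.2) h
      have h3 := congrArg (fun z => z.2.1) h
      have h4 := congrArg (fun z => z.2.2) h
      refine Prod.ext (funext fun b => ?_) (funext fun b => ?_)
      · cases b with
        | none => exact h3
        | some b => exact congrFun h1 b
      · cases b with
        | none => exact h4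
        | some b => exact congrFun h2 b
    · rintro ⟨q, z⟩ ⟨hq, hz⟩
      refine ⟨(fun b => b.elim z.1 q.1, fun b => b.elim z.2 q.2), ?_, rfl⟩
      intro b
      cases b with
      | none => exact hz
      | some b => exact hq b

end TAP47

open TIN47 TAP47

theorem sTap : STap := by
  classical
  intro k _ _ I J _ c τ v
  refine ⟨?_, ?_⟩
  · intro i m hi hc
    have hsplit := mo_split (k := k) (A := Tor J) ICons_Tor
      (p := fun p => ∑ i' ∈ τ.erase i, algebraMap k ℂ (c i') * pmn p (m i') = algebraMap k ℂ v)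
      (ICons.eq (PFun.sum _ fun i' _ => PFun.mul (PFun.const (c i')) (PFun_pmn (m i')))
        (PFun.const v))
    have h1 : TC k c (τ.erase i) m v = mo k {p : (J → ℂ) × (J → ℂ) | p ∈ Tor J ∧
        ∑ i' ∈ τ.erase i, algebraMap k ℂ (c i') * pmn p (m i') = algebraMap k ℂ v} := by
      unfold TC
      rw [TC_set_eq]
    rw [← mo_Tor J, hsplit, h1, add_comm]
    refine congrArg (fun z => mo k {p : (J → ℂ) × (J → ℂ) | p ∈ Tor J ∧
        ∑ i' ∈ τ.erase i, algebraMap k ℂ (c i') * pmn p (m i') = algebraMap k ℂ v} + z) ?_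
    -- the sum over `τ`
    have hci : algebraMap k ℂ (c i) ≠ 0 := by
      intro h
      exact hc ((map_eq_zero _).1 h)
    have hmon : ∀ (x : Option J → ℂ), mon x (fun j : Option J => if j = none then 1 else 0) =
        x none := by
      intro x
      unfold mon
      rw [Fintype.prod_option]
      simp
    have hmon2 : ∀ (x : Option J → ℂ) (n : J → ℤ), mon x (fun j : Option J => j.elim 0 n) =
        mon (fun j => x (some j)) n := by
      intro x n
      unfold mon
      rw [Fintype.prod_option]
      simp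
    have hsum : ∀ x : Option J → ℂ, ∑ i' ∈ τ, algebraMap k ℂ (c i') *
        mon x (if i' = i then (fun j => if j = none then 1 else 0)
        else fun j => j.elim 0 (m i')) = algebraMap k ℂ (c i) * x none +
        ∑ i' ∈ τ.erase i, algebraMap k ℂ (c i') * mon (fun j => x (some j)) (m i') := by
      intro x
      rw [← Finset.add_sum_erase τ _ hi]
      rw [if_pos rfl, hmon]
      refine congrArg (fun z => algebraMap k ℂ (c i) * x none + z) ?_
      refine Finset.sum_congr rfl fun i' hi' => ?_
      rw [if_neg (Finset.ne_of_mem_erase hi'), hmon2]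
    have hfun : (fun i' (j : Option J) => if i' = i then (if j = none then (1 : ℤ) else 0)
        else j.elim 0 (m i')) = fun i' => if i' = i then (fun j => if j = none then (1 : ℤ) else 0)
        else fun j => j.elim 0 (m i') := by
      funext i' j
      by_cases h : i' = i
      · simp only [if_pos h]
      · simp only [if_neg h]
    unfold TC
    refine mo_bij (f := fun p : (Option J → ℂ) × (Option J → ℂ) =>
      ((fun a => p.1 (some a), fun a => p.2 (some a)) : (J → ℂ) × (J → ℂ)))
      (ICons_TC c τ _ v) ?_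
      (PMap.prodMk (PMap.pi fun a => (PFun.apply (some a)).comp PMap.fst)
        (PMap.pi fun a => (PFun.apply (some a)).comp PMap.snd)) ⟨?_, ?_, ?_⟩
    · exact ICons.and ICons_Tor (ICons.not (ICons.eq (PFun.sum _ fun i' _ =>
        PFun.mul (PFun.const (c i')) (PFun_pmn (m i'))) (PFun.const v)))
    · rintro p ⟨hp, h⟩
      have hT : ((fun a => p.1 (some a), fun a => p.2 (some a)) : (J → ℂ) × (J → ℂ)) ∈ Tor J :=
        fun a => hp (some a)
      refine ⟨hT, ?_⟩
      intro h2
      rw [hfun, hsum] at h
      have h3 : ∑ i' ∈ τ.erase i, algebraMap k ℂ (c i') * mon (fun j => p.1 (some j)) (m i') =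
          algebraMap k ℂ v := by
        rw [← h2]
        exact Finset.sum_congr rfl fun i' _ => by rw [pmn_eq hT]
      rw [h3] at h
      have h4 : algebraMap k ℂ (c i) * p.1 none = 0 := by
        linear_combination h
      rcases mul_eq_zero.1 h4 with h5 | h5
      · exact hci h5
      · exact Tor_ne hp none h5
    · rintro p ⟨hp, h⟩ q ⟨hq, h'⟩ hpq
      have e1 := (Prod.mk.inj hpq).1
      rw [hfun, hsum] at h h'
      refine Tor_ext hp hq (funext fun b => ?_)
      cases b with
      | none =>
        rw [← h', ← e1] at h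
        have h5 : algebraMap k ℂ (c i) * p.1 none = algebraMap k ℂ (c i) * q.1 none :=
          add_right_cancel h
        exact mul_left_cancel₀ hci h5
      | some b => exact congrFun e1 b
    · rintro q ⟨hq, h⟩
      set S : ℂ := ∑ i' ∈ τ.erase i, algebraMap k ℂ (c i') * mon q.1 (m i') with hS
      have hS2 : ∑ i' ∈ τ.erase i, algebraMap k ℂ (c i') * pmn q (m i') = S :=
        Finset.sum_congr rfl fun i' _ => by rw [pmn_eq hq]
      have hne : algebraMap k ℂ v - S ≠ 0 := by
        intro h0
        apply h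
        rw [hS2]
        linear_combination -h0
      refine ⟨(fun b => b.elim ((algebraMap k ℂ v - S) / algebraMap k ℂ (c i)) q.1,
        fun b => b.elim ((algebraMap k ℂ v - S) / algebraMap k ℂ (c i))⁻¹ q.2), ⟨?_, ?_⟩, rfl⟩
      · intro b
        cases b with
        | none => exact mul_inv_cancel₀ (div_ne_zero hne hci)
        | some b => exact hq b
      · rw [hfun, hsum]
        simp only [Option.elim]
        rw [mul_div_cancel₀ _ hci]
        change algebraMap k ℂ v - S + S = algebraMap k ℂ v
        ring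
  · intro m
    refine ⟨?_, ?_⟩
    · unfold TC
      have e : {p : (J → ℂ) × (J → ℂ) | p ∈ Tor J ∧
          ∑ i ∈ (∅ : Finset I), algebraMap k ℂ (c i) * mon p.1 (m i) = algebraMap k ℂ 1} = ∅ := by
        ext p
        simp
      rw [e, mo_empty]
    · unfold TC
      have e : {p : (J → ℂ) × (J → ℂ) | p ∈ Tor J ∧
          ∑ i ∈ (∅ : Finset I), algebraMap k ℂ (c i) * mon p.1 (m i) = algebraMap k ℂ 0} =
          Tor J := by
        ext p
        simp
      rw [e, mo_Tor]

end Pool.Newt2
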