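import Pool.Agent.H39.Newt2.Stmts

/-! # NEWTON2, module TIN: invariance under automorphisms of the torus -/

set_option autoImplicit false

namespace Pool.Newt2

open MvPolynomial Pool.Agent.H39.MonoR Pool.Agent.H75.Mono Pool.Newt

namespace TIN47

variable {J J' : Type} [Fintype J] [Fintype J']

/-- monomials, written with the inverses -/
noncomputable def pmn (p : (J → ℂ) × (J → ℂ)) (m : J → ℤ) : ℂ :=
  ∏ j, p.1 j ^ (m j).toNat * p.2 j ^ (-m j).toNat

theorem Tor_ne {p : (J → ℂ) × (J → ℂ)} (hp : p ∈ Tor J) (j : J) : p.1 j ≠ 0 := by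
  intro h
  have h2 := hp j
  rw [h, zero_mul] at h2
  exact zero_ne_one h2

theorem Tor_inv {p : (J → ℂ) × (J → ℂ)} (hp : p ∈ Tor J) (j : J) : p.2 j = (p.1 j)⁻¹ :=
  eq_inv_of_mul_eq_one_right (hp j)

theorem pmn_eq {p : (J → ℂ) × (J → ℂ)} (hp : p ∈ Tor J) (m : J → ℤ) : pmn p m = mon p.1 m := by
  unfold pmn mon
  refine Finset.prod_congr rfl fun j _ => ?_
  rw [Tor_inv hp j, inv_pow, ← zpow_natCast, ← zpow_natCast, ← zpow_neg,
    ← zpow_add₀ (Tor_ne hp j)]
  have h : (((m j).toNat : ℕ) : ℤ) + -(((-m j).toNat : ℕ) : ℤ) = m j := by omega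
  rw [h]

theorem mon_add {x : J → ℂ} (hx : ∀ j, x j ≠ 0) (m n : J → ℤ) :
    mon x (m + n) = mon x m * mon x n := by
  unfold mon
  rw [← Finset.prod_mul_distrib]
  refine Finset.prod_congr rfl fun j _ => ?_
  rw [Pi.add_apply, zpow_add₀ (hx j)]

theorem mon_zero (x : J → ℂ) : mon x 0 = 1 := by
  unfold mon
  simp

theorem mon_smul {x : J → ℂ} (n : ℤ) (m : J → ℤ) : mon x (n • m) = mon x m ^ n := by
  unfold mon
  rw [← Finset.prod_zpow]
  refine Finset.prod_congr rfl fun j _ => ?_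
  rw [Pi.smul_apply, smul_eq_mul, mul_comm, zpow_mul]

theorem mon_neg {x : J → ℂ} (m : J → ℤ) : mon x (-m) = (mon x m)⁻¹ := by
  have h := mon_smul (x := x) (-1) m
  rw [neg_one_smul, zpow_neg_one] at h
  exact h

theorem mon_ne {x : J → ℂ} (hx : ∀ j, x j ≠ 0) (m : J → ℤ) : mon x m ≠ 0 := by
  unfold mon
  exact Finset.prod_ne_zero_iff.2 fun j _ => zpow_ne_zero _ (hx j)

theorem mon_sum {x : J → ℂ} (hx : ∀ j, x j ≠ 0) {ι : Type*} (s : Finset ι) (f : ι → J → ℤ) :
    mon x (∑ i ∈ s, f i) = ∏ i ∈ s, mon x (f i) := by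
  classical
  induction s using Finset.induction_on with
  | empty => rw [Finset.sum_empty, Finset.prod_empty, mon_zero]
  | insert a s ha ih => rw [Finset.sum_insert ha, Finset.prod_insert ha, mon_add hx, ih]

open Classical in
theorem mon_single (x : J → ℂ) (j : J) : mon x (Pi.single j 1) = x j := by
  unfold mon
  rw [Finset.prod_eq_single j]
  · rw [Pi.single_eq_same, zpow_one]
  · intro b _ hb
    rw [Pi.single_eq_of_ne hb, zpow_zero]
  · intro h
    exact absurd (Finset.mem_univ j) h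

open Classical in
theorem mon_comp {x : J → ℂ} (hx : ∀ j, x j ≠ 0) (E : (J' → ℤ) ≃+ (J → ℤ)) (n : J' → ℤ) :
    mon (fun j' => mon x (E (Pi.single j' 1))) n = mon x (E n) := by
  have h1 : n = ∑ j', n j' • (Pi.single j' 1 : J' → ℤ) := by
    funext l
    rw [Finset.sum_apply]
    simp [Pi.single_apply]
  have h2 : E n = ∑ j', n j' • E (Pi.single j' 1) := by
    conv_lhs => rw [h1]
    rw [map_sum]
    refine Finset.sum_congr rfl fun j' _ => ?_
    rw [map_zsmul]
  rw [h2, mon_sum hx]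
  unfold mon
  refine Finset.prod_congr rfl fun j' _ => ?_
  exact (mon_smul (n j') (E (Pi.single j' 1))).symm

variable {k : Type} [Field k] [Algebra k ℂ] {I : Type}

theorem PFun_pmn (m : J → ℤ) : PFun k (fun p : (J → ℂ) × (J → ℂ) => pmn p m) := by
  have key : ∀ s : Finset J, PFun k (fun p : (J → ℂ) × (J → ℂ) =>
      ∏ j ∈ s, p.1 j ^ (m j).toNat * p.2 j ^ (-m j).toNat) := by
    classical
    intro s
    induction s using Finset.induction_on with
    | empty => simpa using (PFun.one : PFun k (fun _ : (J → ℂ) × (J → ℂ) => (1 : ℂ)))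
    | insert a s ha ih =>
      simp only [Finset.prod_insert ha]
      exact PFun.mul (PFun.mul (PFun.pow ((PFun.apply a).comp PMap.fst) _)
        (PFun.pow ((PFun.apply a).comp PMap.snd) _)) ih
  exact key Finset.univ

theorem ICons_Tor : ICons k (Tor J) :=
  ICons.forall_fin fun j => ICons.eq (PFun.mul ((PFun.apply j).comp PMap.fst)
    ((PFun.apply j).comp PMap.snd)) PFun.one

theorem TC_set_eq (c : I → k) (τ : Finset I) (m : I → J → ℤ) (v : k) :
    {p : (J → ℂ) × (J → ℂ) | p ∈ Tor J ∧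
      ∑ i ∈ τ, algebraMap k ℂ (c i) * mon p.1 (m i) = algebraMap k ℂ v} =
    {p : (J → ℂ) × (J → ℂ) | p ∈ Tor J ∧
      ∑ i ∈ τ, algebraMap k ℂ (c i) * pmn p (m i) = algebraMap k ℂ v} := by
  ext p
  simp only [Set.mem_ofPred_eq]
  refine and_congr_right fun hp => ?_
  have h : ∑ i ∈ τ, algebraMap k ℂ (c i) * mon p.1 (m i) =
      ∑ i ∈ τ, algebraMap k ℂ (c i) * pmn p (m i) :=
    Finset.sum_congr rfl fun i _ => by rw [pmn_eq hp]
  rw [h]

theorem ICons_TC (c : I → k) (τ : Finset I) (m : I → J → ℤ) (v : k) :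
    ICons k {p : (J → ℂ) × (J → ℂ) | p ∈ Tor J ∧
      ∑ i ∈ τ, algebraMap k ℂ (c i) * mon p.1 (m i) = algebraMap k ℂ v} := by
  rw [TC_set_eq]
  refine ICons.and ICons_Tor (ICons.eq (PFun.sum τ fun i _ => ?_) (PFun.const v))
  exact PFun.mul (PFun.const (c i)) (PFun_pmn (m i))

open Classical in
/-- the map of tori -/
noncomputable def torMap (E : (J' → ℤ) ≃+ (J → ℤ)) (p : (J → ℂ) × (J → ℂ)) :
    (J' → ℂ) × (J' → ℂ) :=
  (fun j' => pmn p (E (Pi.single j' 1)), fun j' => pmn p (-E (Pi.single j' 1)))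

open Classical in
theorem torMap_fst (E : (J' → ℤ) ≃+ (J → ℤ)) {p : (J → ℂ) × (J → ℂ)} (hp : p ∈ Tor J) :
    (torMap E p).1 = fun j' => mon p.1 (E (Pi.single j' 1)) := by
  funext j'
  exact pmn_eq hp _

theorem torMap_mem (E : (J' → ℤ) ≃+ (J → ℤ)) {p : (J → ℂ) × (J → ℂ)} (hp : p ∈ Tor J) :
    torMap E p ∈ Tor J' := by
  classical
  intro j'
  unfold torMap
  simp only
  rw [pmn_eq hp, pmn_eq hp, mon_neg]
  exact mul_inv_cancel₀ (mon_ne (Tor_ne hp) _)

theorem torMap_mon (E : (J' → ℤ) ≃+ (J → ℤ)) {p : (J → ℂ) × (J → ℂ)} (hp : p ∈ Tor J)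
    (n : J' → ℤ) : mon (torMap E p).1 n = mon p.1 (E n) := by
  rw [torMap_fst E hp]
  exact mon_comp (Tor_ne hp) E n

theorem Tor_ext {p q : (J → ℂ) × (J → ℂ)} (hp : p ∈ Tor J) (hq : q ∈ Tor J) (h : p.1 = q.1) :
    p = q := by
  refine Prod.ext h (funext fun j => ?_)
  rw [Tor_inv hp j, Tor_inv hq j, h]

theorem torMap_torMap (E : (J' → ℤ) ≃+ (J → ℤ)) {p : (J → ℂ) × (J → ℂ)} (hp : p ∈ Tor J) :
    torMap E.symm (torMap E p) = p := by
  classical
  refine Tor_ext (torMap_mem _ (torMap_mem E hp)) hp ?_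
  rw [torMap_fst _ (torMap_mem E hp)]
  funext j
  rw [torMap_mon E hp, AddEquiv.apply_symm_apply, mon_single]

theorem PMap_torMap (E : (J' → ℤ) ≃+ (J → ℤ)) : PMap k (torMap E) := by
  classical
  exact PMap.prodMk (PMap.pi fun j' => PFun_pmn _) (PMap.pi fun j' => PFun_pmn _)

end TIN47

open TIN47

theorem sTin : STin := by
  intro k _ _ I J J' _ _ E c τ m v
  unfold TC
  refine mo_bij (ICons_TC c τ _ v) (ICons_TC c τ m v) (PMap_torMap E) ⟨?_, ?_, ?_⟩
  · rintro p ⟨hp, h⟩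
    refine ⟨torMap_mem E hp, ?_⟩
    rw [← h]
    exact Finset.sum_congr rfl fun i _ => by rw [torMap_mon E hp]
  · rintro p ⟨hp, _⟩ q ⟨hq, _⟩ h
    rw [← torMap_torMap E hp, h, torMap_torMap E hq]
  · rintro q ⟨hq, h⟩
    have hp := torMap_mem E.symm hq
    have h1 : torMap E (torMap E.symm q) = q := torMap_torMap E.symm hq
    refine ⟨torMap E.symm q, ⟨hp, ?_⟩, h1⟩
    rw [← h]
    refine Finset.sum_congr rfl fun i _ => ?_
    rw [← torMap_mon E hp, h1]

end Pool.Newt2
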